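import Pool.Agent.H6.FI.TargetsA

/-!
Row CRN of the board fi_modules: Clifford's theorem, restriction to normal subgroups.
-/

set_option autoImplicit false

namespace Pool.Agent.H1.FI

open _root_.FI

section

variable {R V : Type} [Group R] [AddCommGroup V]

/-- the minimal nonzero invariant subgroups -/
def MinI (ρ : R →* AddMonoid.End V) (K : Subgroup R) (S : AddSubgroup V) : Prop :=
  Inv ρ K S ∧ S ≠ ⊥ ∧ ∀ T : AddSubgroup V, T ≤ S → Inv ρ K T → T = ⊥ ∨ T = S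

theorem mul_apply (ρ : R →* AddMonoid.End V) (a b : R) (v : V) : ρ (a * b) v = ρ a (ρ b v) := by
  rw [map_mul]
  rfl

theorem inv_apply_self (ρ : R →* AddMonoid.End V) (a : R) (v : V) : ρ a⁻¹ (ρ a v) = v := by
  rw [← mul_apply, inv_mul_cancel, map_one]
  rfl

theorem apply_inv_self (ρ : R →* AddMonoid.End V) (a : R) (v : V) : ρ a (ρ a⁻¹ v) = v := by
  rw [← mul_apply, mul_inv_cancel, map_one]
  rfl

theorem inv_inf {ρ : R →* AddMonoid.End V} {K : Subgroup R} {S T : AddSubgroup V}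
    (hS : Inv ρ K S) (hT : Inv ρ K T) : Inv ρ K (S ⊓ T) :=
  fun r hr w hw => ⟨hS r hr w hw.1, hT r hr w hw.2⟩

theorem inv_sup {ρ : R →* AddMonoid.End V} {K : Subgroup R} {S T : AddSubgroup V}
    (hS : Inv ρ K S) (hT : Inv ρ K T) : Inv ρ K (S ⊔ T) := by
  intro r hr w hw
  obtain ⟨s, hs, t, ht, rfl⟩ := AddSubgroup.mem_sup.mp hw
  rw [map_add]
  exact AddSubgroup.mem_sup.mpr ⟨_, hS r hr s hs, _, hT r hr t ht, rfl⟩

/-- the image of an invariant subgroup -/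
theorem inv_map {ρ : R →* AddMonoid.End V} {K : Subgroup R} {S : AddSubgroup V} {b : R}
    (hb : ∀ k ∈ K, b⁻¹ * k * b ∈ K) (hS : Inv ρ K S) : Inv ρ K (S.map (ρ b)) := by
  intro k hk w hw
  obtain ⟨s, hs, rfl⟩ := AddSubgroup.mem_map.mp hw
  refine AddSubgroup.mem_map.mpr ⟨ρ (b⁻¹ * k * b) s, hS _ (hb k hk) s hs, ?_⟩
  change ρ b (ρ (b⁻¹ * k * b) s) = ρ k (ρ b s)
  rw [← mul_apply, ← mul_apply, show b * (b⁻¹ * k * b) = k * b by group]

theorem min_map {ρ : R →* AddMonoid.End V} {K : Subgroup R} {S : AddSubgroup V} {b : R}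
    (hb : ∀ k ∈ K, b⁻¹ * k * b ∈ K) (hb' : ∀ k ∈ K, b * k * b⁻¹ ∈ K) (hS : MinI ρ K S) :
    MinI ρ K (S.map (ρ b)) := by
  obtain ⟨h1, h2, h3⟩ := hS
  refine ⟨inv_map hb h1, ?_, fun T hT hTK => ?_⟩
  · intro h
    refine h2 ((AddSubgroup.eq_bot_iff_forall _).mpr fun s hs => ?_)
    have h4 : ρ b s ∈ S.map (ρ b) := AddSubgroup.mem_map_of_mem _ hs
    rw [h, AddSubgroup.mem_bot] at h4
    have h5 := inv_apply_self ρ b s
    rw [h4, map_zero] at h5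
    exact h5.symm
  · have h4 : Inv ρ K (T.map (ρ b⁻¹)) :=
      inv_map (fun k hk => by rw [inv_inv]; exact hb' k hk) hTK
    have h5 : T.map (ρ b⁻¹) ≤ S := by
      rintro _ ⟨t, ht, rfl⟩
      obtain ⟨s, hs, rfl⟩ := AddSubgroup.mem_map.mp (hT ht)
      change ρ b⁻¹ (ρ b s) ∈ S
      rw [inv_apply_self]
      exact hs
    have h6 : T = (T.map (ρ b⁻¹)).map (ρ b) := by
      ext t
      constructor
      · intro ht
        exact ⟨ρ b⁻¹ t, ⟨t, ht, rfl⟩, apply_inv_self ρ b t⟩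
      · rintro ⟨_, ⟨t', ht', rfl⟩, rfl⟩
        change ρ b (ρ b⁻¹ t') ∈ T
        rw [apply_inv_self]
        exact ht'
    rcases h3 _ h5 h4 with h7 | h7
    · left
      rw [h6, h7, AddSubgroup.map_bot]
    · right
      rw [h6, h7]

theorem exists_min [Finite V] {ρ : R →* AddMonoid.End V} {K : Subgroup R} {W : AddSubgroup V}
    (hW : Inv ρ K W) (h0 : W ≠ ⊥) : ∃ S ≤ W, MinI ρ K S := by
  obtain ⟨S, hS1, hS2⟩ := (Set.toFinite {S : AddSubgroup V | Inv ρ K S ∧ S ≠ ⊥ ∧ S ≤ W}).exists_minimal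
    ⟨W, hW, h0, le_refl _⟩
  obtain ⟨a1, a2, a3⟩ := hS1
  refine ⟨S, a3, a1, a2, fun T hT hTK => ?_⟩
  by_cases hT0 : T = ⊥
  · exact Or.inl hT0
  · exact Or.inr (le_antisymm hT (hS2 ⟨hTK, hT0, hT.trans a3⟩ hT))

end

theorem pf_CRN (h1 : T_CRW) : T_CRN := by
  have _ := h1
  intro R V _ _ _ ρ B K W hWB hcr hKB hn
  have hn' : ∀ b ∈ B, ∀ k ∈ K, b⁻¹ * k * b ∈ K := by
    intro b hb k hk
    have := hn b⁻¹ (B.inv_mem hb) k hk
    rwa [inv_inv] at this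
  obtain ⟨𝒮, h𝒮⟩ : ∃ 𝒮 : Set (AddSubgroup V), 𝒮 = {S | S ≤ W ∧ MinI ρ K S} := ⟨_, rfl⟩
  have hle : sSup 𝒮 ≤ W := by
    refine sSup_le fun S hS => ?_
    rw [h𝒮] at hS
    exact hS.1
  have hinv : Inv ρ B (sSup 𝒮) := by
    intro b hb
    have h2 : sSup 𝒮 ≤ (sSup 𝒮).comap (ρ b) := by
      refine sSup_le fun S hS => ?_
      rw [← AddSubgroup.map_le_iff_le_comap]
      refine le_sSup ?_
      rw [h𝒮] at hS ⊢
      refine ⟨?_, min_map (hn' b hb) (hn b hb) hS.2⟩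
      rintro _ ⟨s, hs, rfl⟩
      exact hWB b hb s (hS.1 hs)
    exact fun w hw => h2 hw
  -- the socle is everything
  have hsoc : sSup 𝒮 = W := by
    obtain ⟨W', hW', hW'B, hd, hs⟩ := hcr _ hle hinv
    by_cases h0 : W' = ⊥
    · rw [h0, sup_bot_eq] at hs
      exact hs
    · obtain ⟨S, hS, hSm⟩ := exists_min (ρ := ρ) (K := K) (fun r hr w hw => hW'B r (hKB hr) w hw) h0
      have h3 : S ≤ sSup 𝒮 := by
        refine le_sSup ?_
        rw [h𝒮]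
        exact ⟨hS.trans hW', hSm⟩
      have h4 : S ≤ ⊥ := by
        rw [← hd]
        exact le_inf h3 hS
      exact absurd (le_bot_iff.mp h4) hSm.2.1
  intro X hX hXK
  obtain ⟨X', ⟨a1, a2, a3⟩, hmax⟩ := (Set.toFinite {X' : AddSubgroup V | X' ≤ W ∧ Inv ρ K X' ∧
    X ⊓ X' = ⊥}).exists_maximal ⟨⊥, bot_le, fun r _ w hw => by
      rw [AddSubgroup.mem_bot] at hw ⊢
      rw [hw, map_zero], inf_bot_eq _⟩
  refine ⟨X', a1, a2, a3, ?_⟩
  by_contra hne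
  have h5 : ∃ S ∈ 𝒮, ¬ S ≤ X ⊔ X' := by
    by_contra h
    push Not at h
    refine hne (le_antisymm (sup_le hX a1) ?_)
    rw [← hsoc]
    exact sSup_le h
  obtain ⟨S, hS, hSX⟩ := h5
  rw [h𝒮] at hS
  obtain ⟨hSW, hSK, hS0, hSm⟩ := hS
  have h6 : S ⊓ (X ⊔ X') = ⊥ := by
    rcases hSm _ inf_le_left (inv_inf hSK (inv_sup hXK a2)) with h | h
    · exact h
    · exact absurd (h ▸ inf_le_right) hSX
  have h7 : X ⊓ (X' ⊔ S) = ⊥ := by
    refine (AddSubgroup.eq_bot_iff_forall _).mpr fun x hx => ?_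
    obtain ⟨x', hx', s, hs, hxs⟩ := AddSubgroup.mem_sup.mp hx.2
    have h8 : s ∈ S ⊓ (X ⊔ X') := by
      refine ⟨hs, ?_⟩
      have : s = x + (-x') := by rw [← hxs]; abel
      rw [this]
      exact AddSubgroup.mem_sup.mpr ⟨x, hx.1, -x', X'.neg_mem hx', rfl⟩
    rw [h6, AddSubgroup.mem_bot] at h8
    have h9 : x = x' := by rw [← hxs, h8, add_zero]
    have h10 : x ∈ X ⊓ X' := ⟨hx.1, h9 ▸ hx'⟩
    rw [a3, AddSubgroup.mem_bot] at h10
    exact h10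
  have h11 := hmax ⟨sup_le a1 hSW, inv_sup a2 hSK, h7⟩ le_sup_left
  exact hSX ((le_sup_right.trans h11).trans le_sup_right)

end Pool.Agent.H1.FI
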